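import Pool.Agent.H95.FG.Defs

open MvPolynomial

namespace H54.FG

open H95.FG

variable {n m : ℕ}

theorem pderiv_inl_rename_inr (k : Fin n) (q : MvPolynomial (Fin n) ℂ) :
    pderiv (Sum.inl k : Fin n ⊕ Fin n) (rename Sum.inr q) = 0 := by
  induction q using MvPolynomial.induction_on with
  | C a => simp
  | add p q hp hq => simp [hp, hq]
  | mul_X p i hp =>
    rw [map_mul, Derivation.leibniz, hp]
    simp [pderiv_X]

theorem pderiv_inr_rename_inl (k : Fin n) (q : MvPolynomial (Fin n) ℂ) :
    pderiv (Sum.inr k : Fin n ⊕ Fin n) (rename Sum.inl q) = 0 := by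
  induction q using MvPolynomial.induction_on with
  | C a => simp
  | add p q hp hq => simp [hp, hq]
  | mul_X p i hp =>
    rw [map_mul, Derivation.leibniz, hp]
    simp [pderiv_X]

theorem pderiv_inl_Q (l : Fin n) :
    pderiv (Sum.inl l : Fin n ⊕ Fin n)
      (∑ k : Fin n, X (Sum.inl k) * X (Sum.inr k) : MvPolynomial (Fin n ⊕ Fin n) ℂ) =
      X (Sum.inr l) := by
  rw [map_sum]
  simp [pderiv_X, Pi.single_apply]

theorem pderiv_inr_Q (l : Fin n) :
    pderiv (Sum.inr l : Fin n ⊕ Fin n)
      (∑ k : Fin n, X (Sum.inl k) * X (Sum.inr k) : MvPolynomial (Fin n ⊕ Fin n) ℂ) =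
      X (Sum.inl l) := by
  rw [map_sum]
  simp [pderiv_X, Pi.single_apply]

theorem t_PAIR : S_PAIR := by
  intro n m p A hS z Y U v hz hv
  obtain ⟨-, hS⟩ := hS
  -- first derivative
  have h1 : ∀ k : Fin n,
      ∑ j, rename Sum.inl (p j) * rename Sum.inr (pderiv k (cj (p j))) =
      X (Sum.inl k) * A +
        (∑ k : Fin n, X (Sum.inl k) * X (Sum.inr k)) * pderiv (Sum.inr k) A := by
    intro k
    have h := congrArg (pderiv (Sum.inr k : Fin n ⊕ Fin n)) hS
    rw [map_sum, Derivation.leibniz, pderiv_inr_Q] at h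
    simp only [Derivation.leibniz, pderiv_inr_rename_inl, smul_eq_mul, mul_zero, add_zero,
      pderiv_rename Sum.inr_injective] at h
    rw [h]; ring
  have h2 : ∀ k l : Fin n,
      ∑ j, rename Sum.inl (pderiv l (p j)) * rename Sum.inr (pderiv k (cj (p j))) =
      (if k = l then A else 0) + X (Sum.inl k) * pderiv (Sum.inl l) A +
        X (Sum.inr l) * pderiv (Sum.inr k) A +
        (∑ k : Fin n, X (Sum.inl k) * X (Sum.inr k)) *
          pderiv (Sum.inl l) (pderiv (Sum.inr k) A) := by
    intro k l
    have h := congrArg (pderiv (Sum.inl l : Fin n ⊕ Fin n)) (h1 k)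
    rw [map_sum, map_add, Derivation.leibniz, Derivation.leibniz, pderiv_inl_Q] at h
    simp only [Derivation.leibniz, pderiv_inl_rename_inr, smul_eq_mul, mul_zero, zero_add,
      pderiv_rename Sum.inl_injective] at h
    have h3 : ∑ j, rename Sum.inl (pderiv l (p j)) * rename Sum.inr (pderiv k (cj (p j))) =
        ∑ j, rename Sum.inr (pderiv k (cj (p j))) *
          (rename (Sum.inl : Fin n → Fin n ⊕ Fin n)) (pderiv l (p j)) :=
      Finset.sum_congr rfl (fun j _ => mul_comm _ _)
    rw [h3, h, pderiv_X]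
    by_cases hkl : k = l
    · subst hkl; simp; ring
    · have : (Sum.inl l : Fin n ⊕ Fin n) ≠ Sum.inl k := fun e => hkl (Sum.inl_injective e).symm
      simp [Pi.single_apply, this, hkl]; ring
  have e1 : ∀ k : Fin n, ∑ j, eval z (p j) * eval Y (pderiv k (cj (p j))) = z k * AA A z Y := by
    intro k
    have h := congrArg (eval (Sum.elim z Y)) (h1 k)
    simp only [map_sum, map_mul, map_add, eval_rename, eval_X, Sum.elim_inl, Sum.elim_inr,
      Sum.elim_comp_inl, Sum.elim_comp_inr, hz, zero_mul, add_zero] at h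
    exact h
  have e2 : ∀ k l : Fin n,
      ∑ j, eval z (pderiv l (p j)) * eval Y (pderiv k (cj (p j))) =
      (if k = l then AA A z Y else 0) + z k * eval (Sum.elim z Y) (pderiv (Sum.inl l) A) +
        Y l * eval (Sum.elim z Y) (pderiv (Sum.inr k) A) := by
    intro k l
    have h := congrArg (eval (Sum.elim z Y)) (h2 k l)
    simp only [map_sum, map_mul, map_add, eval_rename, eval_X, Sum.elim_inl, Sum.elim_inr,
      Sum.elim_comp_inl, Sum.elim_comp_inr, hz, zero_mul, add_zero] at h
    rw [h]
    by_cases hkl : k = l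
    · simp [hkl, AA]
    · simp [hkl]
  constructor
  · have : ∀ j, ev p z j * dp (fun j => cj (p j)) U Y j =
        ∑ k, U k * (eval z (p j) * eval Y (pderiv k (cj (p j)))) := by
      intro j
      rw [dp, ev, Finset.mul_sum]
      exact Finset.sum_congr rfl (fun k _ => by ring)
    rw [Finset.sum_congr rfl (fun j _ => this j), Finset.sum_comm, Finset.sum_mul]
    refine Finset.sum_congr rfl (fun k _ => ?_)
    rw [← Finset.mul_sum, e1 k]; ring
  · have : ∀ j, dp p v z j * dp (fun j => cj (p j)) U Y j =
        ∑ k, ∑ l, U k * v l * (eval z (pderiv l (p j)) * eval Y (pderiv k (cj (p j)))) := by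
      intro j
      rw [dp, dp, Finset.sum_mul_sum, Finset.sum_comm]
      exact Finset.sum_congr rfl (fun k _ => Finset.sum_congr rfl (fun l _ => by ring))
    rw [Finset.sum_congr rfl (fun j _ => this j), Finset.sum_comm]
    have h5 : ∀ k, ∑ j, ∑ l, U k * v l * (eval z (pderiv l (p j)) * eval Y (pderiv k (cj (p j)))) =
        U k * v k * AA A z Y + z k * U k * dA A v z Y := by
      intro k
      rw [Finset.sum_comm]
      have : ∀ l, ∑ j, U k * v l * (eval z (pderiv l (p j)) * eval Y (pderiv k (cj (p j)))) =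
          (if k = l then U k * v l * AA A z Y else 0) +
          z k * U k * (v l * eval (Sum.elim z Y) (pderiv (Sum.inl l) A)) +
          U k * eval (Sum.elim z Y) (pderiv (Sum.inr k) A) * (v l * Y l) := by
        intro l
        rw [← Finset.mul_sum, e2 k l]
        by_cases hkl : k = l
        · simp [hkl]; ring
        · simp [hkl]; ring
      rw [Finset.sum_congr rfl (fun l _ => this l), Finset.sum_add_distrib,
        Finset.sum_add_distrib, ← Finset.mul_sum, ← Finset.mul_sum, hv]
      simp [dA]
    rw [Finset.sum_congr rfl (fun k _ => h5 k), Finset.sum_add_distrib, ← Finset.sum_mul,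
      ← Finset.sum_mul]
    congr 2
    exact Finset.sum_congr rfl (fun k _ => mul_comm _ _)

end H54.FG
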